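import Mathlib

set_option autoImplicit false

namespace Pool.Agent.Q250.Braid

open SimpleGraph

section dist

variable {V : Type*} {G : SimpleGraph V}

/-- A neighbour one step closer. -/
lemma exists_adj_dist {x y : V} (h : G.Reachable x y) (hne : x ≠ y) :
    ∃ y', G.Adj y y' ∧ G.dist x y' + 1 = G.dist x y := by
  obtain ⟨w, hw⟩ := h.symm.exists_walk_length_eq_dist
  cases w with
  | nil => exact absurd rfl hne
  | cons hadj p =>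
    rename_i z
    refine ⟨z, hadj, ?_⟩
    rw [Walk.length_cons] at hw
    have h1 : G.dist z x ≤ p.length := G.dist_le p
    have h2 : G.dist y x ≤ G.dist z x + 1 := by
      have h3 : G.Reachable z x := ⟨p⟩
      obtain ⟨q, hq⟩ := h3.exists_walk_length_eq_dist
      have := G.dist_le (Walk.cons hadj q)
      rw [Walk.length_cons, hq] at this
      exact this
    rw [G.dist_comm (u := x) (v := z), G.dist_comm (u := x) (v := y)]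
    omega

/-- Distance changes by at most one along an edge. -/
lemma dist_adj_le {x y y' : V} (h : G.Reachable x y) (hadj : G.Adj y y') :
    G.dist x y' ≤ G.dist x y + 1 := by
  obtain ⟨q, hq⟩ := h.exists_walk_length_eq_dist
  have := G.dist_le (q.append (Walk.cons hadj Walk.nil))
  rw [Walk.length_append, hq] at this
  simpa using this

/-- A criterion for a function to be the graph distance on a set closed under adjacency. -/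
lemma dist_eq_of (X : Set V) (D : V → V → ℕ)
    (hX : ∀ x ∈ X, ∀ y, G.Adj x y → y ∈ X) (h0 : ∀ x ∈ X, D x x = 0)
    (hL : ∀ x ∈ X, ∀ y ∈ X, ∀ y', G.Adj y y' → D x y' ≤ D x y + 1)
    (hS : ∀ x ∈ X, ∀ y ∈ X, x ≠ y → ∃ y', G.Adj y y' ∧ D x y' + 1 = D x y)
    {x y : V} (hx : x ∈ X) (hy : y ∈ X) : G.Reachable x y ∧ G.dist x y = D x y := by
  have low : ∀ y : V, ∀ w : G.Walk y x, y ∈ X → D x y ≤ w.length := by
    intro y w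
    induction w with
    | nil => intro h; rw [h0 _ h]; exact Nat.zero_le _
    | cons hadj p ih =>
      intro hy
      rename_i a b c
      have hb : b ∈ X := hX _ hy _ hadj
      have := hL c hx b hb a hadj.symm
      have := ih hx hb
      rw [Walk.length_cons]
      omega
  have key : ∀ n : ℕ, ∀ y ∈ X, D x y = n → ∃ w : G.Walk x y, w.length = n := by
    intro n
    induction n with
    | zero =>
      intro y hy hD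
      by_cases hxy : x = y
      · subst hxy; exact ⟨Walk.nil, rfl⟩
      · obtain ⟨y', _, h⟩ := hS x hx y hy hxy
        omega
    | succ n ih =>
      intro y hy hD
      have hxy : x ≠ y := by
        rintro rfl
        rw [h0 x hx] at hD
        omega
      obtain ⟨y', hadj, h⟩ := hS x hx y hy hxy
      obtain ⟨w, hw⟩ := ih y' (hX y hy y' hadj) (by omega)
      exact ⟨w.append (Walk.cons hadj.symm Walk.nil), by simp [hw]⟩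
  obtain ⟨w, hw⟩ := key (D x y) y hy rfl
  refine ⟨⟨w⟩, le_antisymm (hw ▸ G.dist_le w) ?_⟩
  obtain ⟨w', hw'⟩ := (show G.Reachable x y from ⟨w⟩).exists_walk_length_eq_dist
  rw [← hw', ← w'.length_reverse]
  exact low y w'.reverse hy

end dist

lemma dist_tri {V : Type*} {G : SimpleGraph V} {x y z : V} (h1 : G.Reachable x y)
    (h2 : G.Reachable y z) : G.dist x z ≤ G.dist x y + G.dist y z := by
  obtain ⟨p, hp⟩ := h1.exists_walk_length_eq_dist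
  obtain ⟨q, hq⟩ := h2.exists_walk_length_eq_dist
  have := G.dist_le (p.append q)
  rw [Walk.length_append, hp, hq] at this
  exact this

/-- Betweenness. -/
def Btw {V : Type*} (G : SimpleGraph V) (x m y : V) : Prop := G.dist x m + G.dist m y = G.dist x y

/-- `m` is a median of `u, v, w` inside `X`. -/
def Med {V : Type*} (G : SimpleGraph V) (X : Set V) (u v w m : V) : Prop :=
  m ∈ X ∧ Btw G u m v ∧ Btw G v m w ∧ Btw G u m w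

lemma Btw.symm {V : Type*} {G : SimpleGraph V} {x m y : V} (h : Btw G x m y) : Btw G y m x := by
  unfold Btw at *
  rw [G.dist_comm (u := y) (v := m), G.dist_comm (u := m) (v := x), G.dist_comm (u := y) (v := x)]
  omega

/-- Unique medians on `X`. -/
def HasMed {V : Type*} (G : SimpleGraph V) (X : Set V) : Prop :=
  ∀ u ∈ X, ∀ v ∈ X, ∀ w ∈ X, ∃! m, Med G X u v w m

lemma med_rot {V : Type*} {G : SimpleGraph V} {X : Set V} {u v w : V}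
    (h : ∃! m, Med G X u v w m) : ∃! m, Med G X v w u m := by
  obtain ⟨m, hm, hu⟩ := h
  refine ⟨m, ⟨hm.1, hm.2.2.1, hm.2.2.2.symm, hm.2.1.symm⟩, fun m' hm' => hu m' ?_⟩
  exact ⟨hm'.1, hm'.2.2.2.symm, hm'.2.1, hm'.2.2.1.symm⟩

/-- Data of a set obtained by joining two pieces along a common gated part. -/
structure Amalgam {V : Type*} (G : SimpleGraph V) (X X₁ X₂ XH : Set V)
    (i₁ i₂ j₁ j₂ π₁ π₂ : V → V) : Prop where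
  cl : ∀ x ∈ X, ∀ y, G.Adj x y → y ∈ X
  cov : ∀ x ∈ X, (∃ y ∈ X₁, x = i₁ y) ∨ (∃ y ∈ X₂, x = i₂ y)
  m₁ : ∀ y ∈ X₁, i₁ y ∈ X
  m₂ : ∀ y ∈ X₂, i₂ y ∈ X
  ne : ∀ x y, i₁ x ≠ i₂ y
  inj₁ : Function.Injective i₁
  inj₂ : Function.Injective i₂
  a₁ : ∀ x y, G.Adj (i₁ x) (i₁ y) ↔ G.Adj x y
  a₂ : ∀ x y, G.Adj (i₂ x) (i₂ y) ↔ G.Adj x y
  a₁₂ : ∀ x ∈ X₁, ∀ y ∈ X₂, G.Adj (i₁ x) (i₂ y) ↔ ∃ h ∈ XH, x = j₁ h ∧ y = j₂ h
  h₁ : ∀ h ∈ XH, j₁ h ∈ X₁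
  h₂ : ∀ h ∈ XH, j₂ h ∈ X₂
  r₁ : ∀ x ∈ X₁, ∀ y ∈ X₁, G.Reachable x y
  r₂ : ∀ x ∈ X₂, ∀ y ∈ X₂, G.Reachable x y
  d₁ : ∀ h ∈ XH, ∀ h' ∈ XH, G.dist (j₁ h) (j₁ h') = G.dist h h'
  d₂ : ∀ h ∈ XH, ∀ h' ∈ XH, G.dist (j₂ h) (j₂ h') = G.dist h h'
  p₁ : ∀ x ∈ X₁, π₁ x ∈ XH ∧
    ∀ h ∈ XH, G.dist x (j₁ h) = G.dist x (j₁ (π₁ x)) + G.dist (π₁ x) h
  p₂ : ∀ x ∈ X₂, π₂ x ∈ XH ∧
    ∀ h ∈ XH, G.dist x (j₂ h) = G.dist x (j₂ (π₂ x)) + G.dist (π₂ x) h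

namespace Amalgam

variable {V : Type*} {G : SimpleGraph V} {X X₁ X₂ XH : Set V} {i₁ i₂ j₁ j₂ π₁ π₂ : V → V}

lemma swap (A : Amalgam G X X₁ X₂ XH i₁ i₂ j₁ j₂ π₁ π₂) :
    Amalgam G X X₂ X₁ XH i₂ i₁ j₂ j₁ π₂ π₁ where
  cl := A.cl
  cov x hx := (A.cov x hx).symm
  m₁ := A.m₂
  m₂ := A.m₁
  ne x y := (A.ne y x).symm
  inj₁ := A.inj₂
  inj₂ := A.inj₁
  a₁ := A.a₂
  a₂ := A.a₁
  a₁₂ x hx y hy := by
    rw [G.adj_comm, A.a₁₂ y hy x hx]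
    constructor
    · rintro ⟨h, hh, h1, h2⟩; exact ⟨h, hh, h2, h1⟩
    · rintro ⟨h, hh, h1, h2⟩; exact ⟨h, hh, h2, h1⟩
  h₁ := A.h₂
  h₂ := A.h₁
  r₁ := A.r₂
  r₂ := A.r₁
  d₁ := A.d₂
  d₂ := A.d₁
  p₁ := A.p₂
  p₂ := A.p₁

variable (A : Amalgam G X X₁ X₂ XH i₁ i₂ j₁ j₂ π₁ π₂)
include A

lemma cl₁ : ∀ x ∈ X₁, ∀ y, G.Adj x y → y ∈ X₁ := by
  intro x hx y hxy
  have h := A.cl _ (A.m₁ x hx) _ ((A.a₁ x y).mpr hxy)
  rcases A.cov _ h with ⟨z, hz, he⟩ | ⟨z, hz, he⟩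
  · rw [A.inj₁ he]; exact hz
  · exact absurd he (A.ne _ _)

/-- The crossing distance in two forms. -/
lemma cross {x y : V} (hx : x ∈ X₁) (hy : y ∈ X₂) :
    G.dist x (j₁ (π₁ x)) + 1 + G.dist (j₂ (π₁ x)) y =
      G.dist x (j₁ (π₂ y)) + 1 + G.dist (j₂ (π₂ y)) y := by
  have e1 := (A.p₁ x hx).2 (π₂ y) (A.p₂ y hy).1
  have e2 := (A.p₂ y hy).2 (π₁ x) (A.p₁ x hx).1
  rw [G.dist_comm (u := π₂ y) (v := π₁ x)] at e2
  rw [G.dist_comm (u := j₂ (π₁ x)) (v := y), G.dist_comm (u := j₂ (π₂ y)) (v := y), e1, e2]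
  ring

lemma exists_D : ∃ D : V → V → ℕ, (∀ x y, D (i₁ x) (i₁ y) = G.dist x y) ∧
    (∀ x y, D (i₂ x) (i₂ y) = G.dist x y) ∧
    (∀ x y, D (i₁ x) (i₂ y) = G.dist x (j₁ (π₁ x)) + 1 + G.dist (j₂ (π₁ x)) y) ∧
    (∀ x y, D (i₂ y) (i₁ x) = G.dist x (j₁ (π₁ x)) + 1 + G.dist (j₂ (π₁ x)) y) := by
  classical
  let c : V → V → ℕ := fun x y => G.dist x (j₁ (π₁ x)) + 1 + G.dist (j₂ (π₁ x)) y
  have g1 : ∀ x : V, ∃ y, (∀ z, x = i₁ z → z = y) := by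
    intro x
    by_cases h : ∃ z, x = i₁ z
    · obtain ⟨z, hz⟩ := h
      exact ⟨z, fun z' hz' => A.inj₁ (hz'.symm.trans hz)⟩
    · exact ⟨x, fun z hz => absurd ⟨z, hz⟩ h⟩
  have g2 : ∀ x : V, ∃ y, (∀ z, x = i₂ z → z = y) := by
    intro x
    by_cases h : ∃ z, x = i₂ z
    · obtain ⟨z, hz⟩ := h
      exact ⟨z, fun z' hz' => A.inj₂ (hz'.symm.trans hz)⟩
    · exact ⟨x, fun z hz => absurd ⟨z, hz⟩ h⟩
  choose k1 hk1 using g1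
  choose k2 hk2 using g2
  have e1 : ∀ z, k1 (i₁ z) = z := fun z => (hk1 _ z rfl).symm
  have e2 : ∀ z, k2 (i₂ z) = z := fun z => (hk2 _ z rfl).symm
  refine ⟨fun u w => if ∃ x, u = i₁ x then
      (if ∃ y, w = i₁ y then G.dist (k1 u) (k1 w) else c (k1 u) (k2 w))
      else (if ∃ y, w = i₁ y then c (k1 w) (k2 u) else G.dist (k2 u) (k2 w)), ?_, ?_, ?_, ?_⟩
  · intro x y
    have h1 : ∃ z, i₁ x = i₁ z := ⟨x, rfl⟩
    have h2 : ∃ z, i₁ y = i₁ z := ⟨y, rfl⟩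
    simp only [if_pos h1, if_pos h2, e1]
  · intro x y
    have h1 : ¬ ∃ z, i₂ x = i₁ z := fun ⟨z, hz⟩ => A.ne _ _ hz.symm
    have h2 : ¬ ∃ z, i₂ y = i₁ z := fun ⟨z, hz⟩ => A.ne _ _ hz.symm
    simp only [if_neg h1, if_neg h2, e2]
  · intro x y
    have h1 : ∃ z, i₁ x = i₁ z := ⟨x, rfl⟩
    have h2 : ¬ ∃ z, i₂ y = i₁ z := fun ⟨z, hz⟩ => A.ne _ _ hz.symm
    simp only [if_pos h1, if_neg h2, e1, e2, c]
  · intro x y
    have h1 : ¬ ∃ z, i₂ y = i₁ z := fun ⟨z, hz⟩ => A.ne _ _ hz.symm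
    have h2 : ∃ z, i₁ x = i₁ z := ⟨x, rfl⟩
    simp only [if_neg h1, if_pos h2, e1, e2, c]

lemma dist_main {x y : V} (hx : x ∈ X) (hy : y ∈ X) (D : V → V → ℕ)
    (D1 : ∀ x y, D (i₁ x) (i₁ y) = G.dist x y)
    (D2 : ∀ x y, D (i₂ x) (i₂ y) = G.dist x y)
    (D3 : ∀ x y, D (i₁ x) (i₂ y) = G.dist x (j₁ (π₁ x)) + 1 + G.dist (j₂ (π₁ x)) y)
    (D4 : ∀ x y, D (i₂ y) (i₁ x) = G.dist x (j₁ (π₁ x)) + 1 + G.dist (j₂ (π₁ x)) y) :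
    G.Reachable x y ∧ G.dist x y = D x y := by
  have hcl₁ := A.cl₁
  have hcl₂ := A.swap.cl₁
  refine dist_eq_of X D A.cl ?_ ?_ ?_ hx hy
  · intro x hx
    rcases A.cov x hx with ⟨z, hz, rfl⟩ | ⟨z, hz, rfl⟩
    · rw [D1, G.dist_self]
    · rw [D2, G.dist_self]
  · intro x hx y hy y' hadj
    have hy' := A.cl y hy y' hadj
    rcases A.cov x hx with ⟨x, kx, rfl⟩ | ⟨x, kx, rfl⟩ <;>
      rcases A.cov y hy with ⟨y, ky, rfl⟩ | ⟨y, ky, rfl⟩ <;>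
      rcases A.cov y' hy' with ⟨y', ky', rfl⟩ | ⟨y', ky', rfl⟩ <;>
      clear hx hy hy' <;> rename' kx => hx, ky => hy, ky' => hy'
    · rw [D1, D1]
      exact dist_adj_le (A.r₁ x hx y hy) ((A.a₁ _ _).mp hadj)
    · obtain ⟨h, hh, rfl, rfl⟩ := (A.a₁₂ y hy y' hy').mp hadj
      rw [D3, D1, A.d₂ _ (A.p₁ x hx).1 _ hh, (A.p₁ x hx).2 h hh]
      omega
    · obtain ⟨h, hh, rfl, rfl⟩ := (A.a₁₂ y' hy' y hy).mp hadj.symm
      rw [D3, D1, A.d₂ _ (A.p₁ x hx).1 _ hh, (A.p₁ x hx).2 h hh]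
      omega
    · rw [D3, D3]
      have := dist_adj_le (A.r₂ (j₂ (π₁ x)) (A.h₂ _ (A.p₁ x hx).1) y hy) ((A.a₂ _ _).mp hadj)
      omega
    · rw [D4, D4, A.cross hy hx, A.cross hy' hx]
      have := dist_adj_le (A.r₁ (j₁ (π₂ x)) (A.h₁ _ (A.p₂ x hx).1) y hy) ((A.a₁ _ _).mp hadj)
      rw [G.dist_comm (u := y'), G.dist_comm (u := y)]
      omega
    · obtain ⟨h, hh, rfl, rfl⟩ := (A.a₁₂ y hy y' hy').mp hadj
      rw [D4, D2, A.cross (A.h₁ h hh) hx, A.d₁ _ hh _ (A.p₂ x hx).1,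
        (A.p₂ x hx).2 h hh, G.dist_comm (u := h), G.dist_comm (u := j₂ (π₂ x))]
      omega
    · obtain ⟨h, hh, rfl, rfl⟩ := (A.a₁₂ y' hy' y hy).mp hadj.symm
      rw [D4, D2, A.cross (A.h₁ h hh) hx, A.d₁ _ hh _ (A.p₂ x hx).1,
        (A.p₂ x hx).2 h hh, G.dist_comm (u := h), G.dist_comm (u := j₂ (π₂ x))]
      omega
    · rw [D2, D2]
      exact dist_adj_le (A.r₂ x hx y hy) ((A.a₂ _ _).mp hadj)
  · intro x hx y hy hne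
    rcases A.cov x hx with ⟨x, kx, rfl⟩ | ⟨x, kx, rfl⟩ <;>
      rcases A.cov y hy with ⟨y, ky, rfl⟩ | ⟨y, ky, rfl⟩ <;>
      clear hx hy <;> rename' kx => hx, ky => hy
    · obtain ⟨y', hadj, hd⟩ := exists_adj_dist (A.r₁ x hx y hy) (fun h => hne (by rw [h]))
      exact ⟨i₁ y', (A.a₁ _ _).mpr hadj, by rw [D1, D1]; exact hd⟩
    · by_cases hc : j₂ (π₁ x) = y
      · refine ⟨i₁ (j₁ (π₁ x)), ?_, ?_⟩
        · rw [G.adj_comm]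
          exact (A.a₁₂ _ (A.h₁ _ (A.p₁ x hx).1) y hy).mpr ⟨_, (A.p₁ x hx).1, rfl, hc.symm⟩
        · rw [D1, D3, hc, G.dist_self]
      · obtain ⟨y', hadj, hd⟩ := exists_adj_dist
          (A.r₂ (j₂ (π₁ x)) (A.h₂ _ (A.p₁ x hx).1) y hy) hc
        exact ⟨i₂ y', (A.a₂ _ _).mpr hadj, by rw [D3, D3]; omega⟩
    · by_cases hc : j₁ (π₂ x) = y
      · refine ⟨i₂ (j₂ (π₂ x)), ?_, ?_⟩
        · exact (A.a₁₂ y hy _ (A.h₂ _ (A.p₂ x hx).1)).mpr ⟨_, (A.p₂ x hx).1, hc.symm, rfl⟩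
        · rw [D2, D4, A.cross hy hx, ← hc, G.dist_self, G.dist_comm (u := x)]
          omega
      · obtain ⟨y', hadj, hd⟩ := exists_adj_dist
          (A.r₁ (j₁ (π₂ x)) (A.h₁ _ (A.p₂ x hx).1) y hy) hc
        refine ⟨i₁ y', (A.a₁ _ _).mpr hadj, ?_⟩
        rw [D4, D4, A.cross hy hx, A.cross (hcl₁ y hy y' hadj) hx, G.dist_comm (u := y'),
          G.dist_comm (u := y)]
        omega
    · obtain ⟨y', hadj, hd⟩ := exists_adj_dist (A.r₂ x hx y hy) (fun h => hne (by rw [h]))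
      exact ⟨i₂ y', (A.a₂ _ _).mpr hadj, by rw [D2, D2]; exact hd⟩

lemma reach {x y : V} (hx : x ∈ X) (hy : y ∈ X) : G.Reachable x y := by
  obtain ⟨D, D1, D2, D3, D4⟩ := A.exists_D
  exact (A.dist_main hx hy D D1 D2 D3 D4).1

lemma dist₁ {x y : V} (hx : x ∈ X₁) (hy : y ∈ X₁) : G.dist (i₁ x) (i₁ y) = G.dist x y := by
  obtain ⟨D, D1, D2, D3, D4⟩ := A.exists_D
  rw [(A.dist_main (A.m₁ x hx) (A.m₁ y hy) D D1 D2 D3 D4).2, D1]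

lemma dist₁₂ {x y : V} (hx : x ∈ X₁) (hy : y ∈ X₂) :
    G.dist (i₁ x) (i₂ y) = G.dist x (j₁ (π₂ y)) + 1 + G.dist (j₂ (π₂ y)) y := by
  obtain ⟨D, D1, D2, D3, D4⟩ := A.exists_D
  rw [(A.dist_main (A.m₁ x hx) (A.m₂ y hy) D D1 D2 D3 D4).2, D3, A.cross hx hy]

/-- The first piece is gated. -/
lemma gate₁ {x y : V} (hx : x ∈ X₁) (hy : y ∈ X₂) :
    G.dist (i₂ y) (i₁ x) = G.dist (i₂ y) (i₁ (j₁ (π₂ y))) + G.dist (j₁ (π₂ y)) x := by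
  rw [G.dist_comm (u := i₂ y) (v := i₁ x), G.dist_comm (u := i₂ y), A.dist₁₂ hx hy,
    A.dist₁₂ (A.h₁ _ (A.p₂ y hy).1) hy, G.dist_self, G.dist_comm (u := x)]
  omega

/-- The first piece is convex. -/
lemma conv₁ {u v m : V} (hu : u ∈ X₁) (hv : v ∈ X₁) (hm : m ∈ X)
    (h : Btw G (i₁ u) m (i₁ v)) : ∃ m' ∈ X₁, m = i₁ m' ∧ Btw G u m' v := by
  rcases A.cov m hm with ⟨m, km, rfl⟩ | ⟨m, km, rfl⟩
  · refine ⟨m, km, rfl, ?_⟩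
    unfold Btw at *
    rwa [A.dist₁ hu km, A.dist₁ km hv, A.dist₁ hu hv] at h
  · exfalso
    unfold Btw at h
    have hp := A.h₁ _ (A.p₂ m km).1
    rw [A.dist₁₂ hu km, G.dist_comm (u := i₂ m), A.dist₁₂ hv km, A.dist₁ hu hv] at h
    have := dist_tri (A.r₁ u hu _ hp) (A.r₁ _ hp v hv)
    rw [G.dist_comm (u := j₁ (π₂ m)) (v := v)] at this
    omega

lemma med₁₁₁ (hM : HasMed G X₁) {u v w : V} (hu : u ∈ X₁) (hv : v ∈ X₁) (hw : w ∈ X₁) :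
    ∃! m, Med G X (i₁ u) (i₁ v) (i₁ w) m := by
  obtain ⟨m, ⟨hm, h1, h2, h3⟩, huniq⟩ := hM u hu v hv w hw
  refine ⟨i₁ m, ⟨A.m₁ m hm, ?_, ?_, ?_⟩, ?_⟩
  · unfold Btw at *; rwa [A.dist₁ hu hm, A.dist₁ hm hv, A.dist₁ hu hv]
  · unfold Btw at *; rwa [A.dist₁ hv hm, A.dist₁ hm hw, A.dist₁ hv hw]
  · unfold Btw at *; rwa [A.dist₁ hu hm, A.dist₁ hm hw, A.dist₁ hu hw]
  · rintro m' ⟨hm', k1, k2, k3⟩
    obtain ⟨n, hn, rfl, b1⟩ := A.conv₁ hu hv hm' k1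
    rw [huniq n ⟨hn, b1, ?_, ?_⟩]
    · unfold Btw at *; rwa [A.dist₁ hv hn, A.dist₁ hn hw, A.dist₁ hv hw] at k2
    · unfold Btw at *; rwa [A.dist₁ hu hn, A.dist₁ hn hw, A.dist₁ hu hw] at k3

lemma btw₁₂ {v m w : V} (hv : v ∈ X₁) (hm : m ∈ X₁) (hw : w ∈ X₂) :
    Btw G (i₁ v) (i₁ m) (i₂ w) ↔ Btw G v m (j₁ (π₂ w)) := by
  unfold Btw
  rw [A.dist₁ hv hm, A.dist₁₂ hm hw, A.dist₁₂ hv hw]
  omega

lemma med₁₁₂ (hM : HasMed G X₁) {u v w : V} (hu : u ∈ X₁) (hv : v ∈ X₁) (hw : w ∈ X₂) :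
    ∃! m, Med G X (i₁ u) (i₁ v) (i₂ w) m := by
  have hp := A.h₁ _ (A.p₂ w hw).1
  obtain ⟨m, ⟨hm, h1, h2, h3⟩, huniq⟩ := hM u hu v hv _ hp
  refine ⟨i₁ m, ⟨A.m₁ m hm, ?_, ?_, ?_⟩, ?_⟩
  · unfold Btw at *; rwa [A.dist₁ hu hm, A.dist₁ hm hv, A.dist₁ hu hv]
  · exact (A.btw₁₂ hv hm hw).mpr h2
  · exact (A.btw₁₂ hu hm hw).mpr h3
  · rintro m' ⟨hm', k1, k2, k3⟩
    obtain ⟨n, hn, rfl, b1⟩ := A.conv₁ hu hv hm' k1
    rw [huniq n ⟨hn, b1, (A.btw₁₂ hv hn hw).mp k2, (A.btw₁₂ hu hn hw).mp k3⟩]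

/-- The amalgam has unique medians. -/
theorem hasMed (hM₁ : HasMed G X₁) (hM₂ : HasMed G X₂) : HasMed G X := by
  intro u hu v hv w hw
  rcases A.cov u hu with ⟨u, ku, rfl⟩ | ⟨u, ku, rfl⟩ <;>
    rcases A.cov v hv with ⟨v, kv, rfl⟩ | ⟨v, kv, rfl⟩ <;>
    rcases A.cov w hw with ⟨w, kw, rfl⟩ | ⟨w, kw, rfl⟩
  · exact A.med₁₁₁ hM₁ ku kv kw
  · exact A.med₁₁₂ hM₁ ku kv kw
  · exact med_rot (A.med₁₁₂ hM₁ kw ku kv)
  · exact med_rot (med_rot (A.swap.med₁₁₂ hM₂ kv kw ku))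
  · exact med_rot (med_rot (A.med₁₁₂ hM₁ kv kw ku))
  · exact med_rot (A.swap.med₁₁₂ hM₂ kw ku kv)
  · exact A.swap.med₁₁₂ hM₂ ku kv kw
  · exact A.swap.med₁₁₁ hM₂ ku kv kw

end Amalgam

end Pool.Agent.Q250.Braid
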