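import Pool.Agent.Q250.Braid.Amalgam

set_option autoImplicit false

namespace Pool.Agent.Q250.Braid

open SimpleGraph

/-- The diameter from an upper bound that is attained. -/
lemma diam_eq_of {V : Type*} {G : SimpleGraph V} (hc : G.Connected) {n : ℕ}
    (hle : ∀ u v, G.dist u v ≤ n) (hex : ∃ u v, G.dist u v = n) : G.diam = n := by
  have h1 : G.ediam ≤ n := by
    apply G.ediam_le_of_edist_le
    intro u v
    rw [← (hc.preconnected u v).coe_dist_eq_edist]
    exact_mod_cast hle u v
  obtain ⟨u, v, huv⟩ := hex
  have h2 : (n : ℕ∞) ≤ G.ediam := by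
    rw [← huv, (hc.preconnected u v).coe_dist_eq_edist]
    exact G.edist_le_ediam
  have h3 : G.ediam = n := le_antisymm h1 h2
  unfold SimpleGraph.diam
  rw [h3]
  rfl

lemma hamming_step {n : ℕ} (x y : Fin n → Bool) (h : x ≠ y) :
    ∃ y', hammingDist y y' = 1 ∧ hammingDist x y' + 1 = hammingDist x y := by
  obtain ⟨i, hi⟩ : ∃ i, x i ≠ y i := by
    by_contra hcon
    push Not at hcon
    exact h (funext hcon)
  refine ⟨Function.update y i (x i), ?_, ?_⟩
  · unfold hammingDist
    rw [Finset.card_eq_one]
    refine ⟨i, ?_⟩
    ext j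
    simp only [Finset.mem_filter, Finset.mem_univ, true_and, Finset.mem_singleton]
    by_cases hj : j = i
    · subst hj; simp [Ne.symm hi]
    · simp [Function.update_of_ne hj, hj]
  · unfold hammingDist
    have : ({j | x j ≠ y j} : Finset (Fin n)) =
        insert i ({j | x j ≠ Function.update y i (x i) j} : Finset (Fin n)) := by
      ext j
      simp only [Finset.mem_filter, Finset.mem_univ, true_and, Finset.mem_insert]
      by_cases hj : j = i
      · subst hj; simp [hi]
      · simp [Function.update_of_ne hj, hj]
    rw [this, Finset.card_insert_of_notMem (by simp)]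

end Pool.Agent.Q250.Braid
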