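import Pool.Agent.Q250.Braid.Median

set_option autoImplicit false

namespace Pool.Agent.Q250.Braid

open SimpleGraph

variable {B : Type*} {M : CoxeterMatrix B} {W : Type*} [Group W] {cs : CoxeterSystem M W}

/-- No triangle of `3`-edges. -/
def TriFree (M : CoxeterMatrix B) : Prop :=
  ∀ s t u : B, E3 M s t → E3 M t u → ¬ E3 M s u

/-- `ω` has a braid shadow starting at position `i`. -/
def ShadowAt (E : B → B → Prop) (ω : List B) (i : ℕ) : Prop :=
  ∃ (u v : List B) (s t : B), E s t ∧ ω = u ++ [s, t, s] ++ v ∧ u.length = i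

lemma shadowAt_cons_succ {E : B → B → Prop} {a : B} {ω : List B} {i : ℕ} :
    ShadowAt E (a :: ω) (i + 1) ↔ ShadowAt E ω i := by
  constructor
  · rintro ⟨u, v, s, t, h, h1, h2⟩
    rcases u with _ | ⟨c, u⟩
    · simp at h2
    · simp only [List.cons_append] at h1
      injection h1 with _ h1
      exact ⟨u, v, s, t, h, h1, by simpa using h2⟩
  · rintro ⟨u, v, s, t, h, h1, h2⟩
    exact ⟨a :: u, v, s, t, h, by rw [h1]; simp, by simp [h2]⟩

lemma shadowAt_zero {E : B → B → Prop} {ω : List B} :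
    ShadowAt E ω 0 ↔ ∃ (v : List B) (s t : B), E s t ∧ ω = s :: t :: s :: v := by
  constructor
  · rintro ⟨u, v, s, t, h, h1, h2⟩
    rw [List.length_eq_zero_iff] at h2
    subst h2
    exact ⟨v, s, t, h, h1⟩
  · rintro ⟨v, s, t, h, h1⟩
    exact ⟨[], v, s, t, h, h1, rfl⟩

variable (cs) in
/-- Shadows occurring among the reduced words of `g`. -/
def Sh (g : W) : Set ℕ := {i | ∃ ω ∈ RW cs g, ShadowAt (E3 M) ω i}

variable (cs) in
/-- The properties proved by induction in the triangle-free case. -/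
structure EP (g : W) (n : ℕ) (φ : List B → Fin n → Bool) (P Q : List B) : Prop where
  mP : P ∈ RW cs g
  mQ : Q ∈ RW cs g
  ham : ∀ x ∈ RW cs g, ∀ y ∈ RW cs g, hammingDist (φ x) (φ y) = (Gr M).dist x y
  anti : (Gr M).dist P Q = n
  sep : ∀ a b, a ≠ b → Ds cs g a → Ds cs g b → P.head? ≠ Q.head?
  fin : (Sh cs g).Finite
  card : (Sh cs g).ncard = n

lemma hammingDist_cons {n : ℕ} (a b : Bool) (x y : Fin n → Bool) :
    hammingDist (Fin.cons a x : Fin (n + 1) → Bool) (Fin.cons b y) =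
      (if a = b then 0 else 1) + hammingDist x y := by
  unfold hammingDist
  rw [Finset.card_filter, Finset.card_filter, Fin.sum_univ_succ]
  congr 1
  by_cases h : a = b
  · simp [h]
  · simp [h]

lemma EP_one : EP cs (1 : W) 0 (fun _ => Fin.elim0) [] [] where
  mP := ⟨by unfold CoxeterSystem.IsReduced; simp, by simp⟩
  mQ := ⟨by unfold CoxeterSystem.IsReduced; simp, by simp⟩
  ham x hx y hy := by
    rw [RW_one hx, RW_one hy]
    simp
  anti := by simp
  sep a b _ ha := by unfold Ds at ha; rw [cs.length_one] at ha; omega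
  fin := by
    have : Sh cs (1 : W) = ∅ := by
      ext i
      simp only [Set.mem_empty_iff_false, iff_false]
      rintro ⟨ω, hω, u, v, s, t, _, h, _⟩
      rw [RW_one hω] at h
      simp at h
    rw [this]; exact Set.finite_empty
  card := by
    have : Sh cs (1 : W) = ∅ := by
      ext i
      simp only [Set.mem_empty_iff_false, iff_false]
      rintro ⟨ω, hω, u, v, s, t, _, h, _⟩
      rw [RW_one hω] at h
      simp at h
    rw [this]; simp

/-- Coverage in the one-descent case. -/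
lemma single_cov {g : W} {a : B} (ha : Ds cs g a) (huniq : ∀ c, Ds cs g c → c = a)
    {x : List B} (hx : x ∈ RW cs g) : ∃ x', x = a :: x' ∧ x' ∈ RW cs (cs.simple a * g) := by
  rcases mem_RW_cases hx with ⟨_, h⟩ | ⟨c, x', rfl, hc, hx'⟩
  · exfalso
    rw [h] at ha
    unfold Ds at ha; rw [cs.length_one] at ha; omega
  · obtain rfl := huniq c hc
    exact ⟨x', rfl, hx'⟩

lemma Sh_single {g : W} {a : B} (ha : Ds cs g a) (huniq : ∀ c, Ds cs g c → c = a) :
    Sh cs g = Nat.succ '' Sh cs (cs.simple a * g) := by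
  ext i
  constructor
  · rintro ⟨ω, hω, h⟩
    obtain ⟨x, rfl, hx⟩ := single_cov ha huniq hω
    rcases i with _ | i
    · exfalso
      obtain ⟨v, s, t, hE, h1⟩ := shadowAt_zero.mp h
      injection h1 with h1 h2
      subst h1
      have h3 : Br (E3 M) (a :: x) (t :: a :: t :: v) := ⟨[], v, a, t, hE, by rw [h2]; rfl, rfl⟩
      have h4 := RW_closed hω h3
      exact hE.ne (huniq t (cons_mem_RW.mp h4).1).symm
    · exact ⟨i, ⟨x, hx, shadowAt_cons_succ.mp h⟩, rfl⟩
  · rintro ⟨i, ⟨x, hx, h⟩, rfl⟩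
    exact ⟨a :: x, cons_mem_RW.mpr ⟨ha, hx⟩, shadowAt_cons_succ.mpr h⟩

lemma EP_single {g : W} {a : B} (ha : Ds cs g a) (huniq : ∀ c, Ds cs g c → c = a)
    (P' : PP cs g)
    {n : ℕ} {φ : List B → Fin n → Bool} {P Q : List B} (h : EP cs (cs.simple a * g) n φ P Q) :
    EP cs g n (fun x => φ x.tail) (a :: P) (a :: Q) where
  mP := cons_mem_RW.mpr ⟨ha, h.mP⟩
  mQ := cons_mem_RW.mpr ⟨ha, h.mQ⟩
  ham x hx y hy := by
    obtain ⟨x, rfl, hx'⟩ := single_cov ha huniq hx
    obtain ⟨y, rfl, hy'⟩ := single_cov ha huniq hy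
    rw [P'.iso a ha x hx' y hy']
    exact h.ham x hx' y hy'
  anti := by rw [P'.iso a ha P h.mP Q h.mQ]; exact h.anti
  sep c d hcd hc hd := absurd ((huniq c hc).trans (huniq d hd).symm) hcd
  fin := by rw [Sh_single ha huniq]; exact h.fin.image _
  card := by
    rw [Sh_single ha huniq, Set.ncard_image_of_injective _ Nat.succ_injective]
    exact h.card

variable [Fintype B] [DecidableEq B]

/-- In the triangle-free case one of the two pieces is small. -/
lemma small_side (hM : ThreeInf M) (hT : TriFree M) {g v : W} {a b : B} (T : Two cs g v a b) :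
    (∀ c, Ds cs (cs.simple a * v) c → c = a) ∨ (∀ c, Ds cs (cs.simple b * v) c → c = b) := by
  by_contra hcon
  push Not at hcon
  obtain ⟨⟨c, hc, hca⟩, ⟨d, hd, hdb⟩⟩ := hcon
  obtain ⟨v₁, T₁⟩ := exists_Two hM hca.symm T.dva hc
  obtain ⟨v₂, T₂⟩ := exists_Two hM hdb.symm T.dvb hd
  have h1 := T₁.dab
  rw [cs.simple_mul_simple_cancel_left] at h1
  have h2 := T₂.dab
  rw [cs.simple_mul_simple_cancel_left] at h2
  have h3 : d = c := by
    apply T₁.desc' hM
    rw [cs.simple_mul_simple_cancel_left]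
    exact h2
  subst h3
  exact hT a b d T.E T₂.E T₁.E

lemma Sh_two (hM : ThreeInf M) {g v : W} {a b : B} (T : Two cs g v a b)
    (hs : ∀ c, Ds cs (cs.simple b * v) c → c = b) :
    Sh cs g = insert 0 ((fun i => i + 2) '' Sh cs (cs.simple a * v)) := by
  obtain ⟨h₀, hh₀⟩ := RW_nonempty (cs := cs) v
  ext i
  constructor
  · rintro ⟨ω, hω, h⟩
    rcases i with _ | _ | i
    · exact Or.inl rfl
    · exfalso
      have key : ∀ (c d : B) (x : List B), ShadowAt (E3 M) (c :: d :: x) 1 →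
          ∃ e x', e ≠ d ∧ Br (E3 M) (c :: d :: x) (c :: e :: x') := by
        intro c d x h
        rw [shadowAt_cons_succ, shadowAt_zero] at h
        obtain ⟨v, s, t, hE, h1⟩ := h
        injection h1 with h1 h2
        subst h1
        exact ⟨t, d :: t :: v, hE.symm.ne, ⟨[c], v, d, t, hE, by rw [h2]; rfl, rfl⟩⟩
      rcases T.cov hM hω with ⟨x, hx, rfl⟩ | ⟨x, hx, rfl⟩
      · obtain ⟨e, x', hne, hbr⟩ := key _ _ _ h
        rcases T.cov hM (RW_closed hω hbr) with ⟨y, _, h1⟩ | ⟨y, _, h1⟩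
        · exact hne (List.cons.inj (List.cons.inj h1).2).1
        · exact T.hab (List.cons.inj h1).1
      · obtain ⟨e, x', hne, hbr⟩ := key _ _ _ h
        rcases T.cov hM (RW_closed hω hbr) with ⟨y, _, h1⟩ | ⟨y, _, h1⟩
        · exact T.hab (List.cons.inj h1).1.symm
        · exact hne (List.cons.inj (List.cons.inj h1).2).1
    · right
      rcases T.cov hM hω with ⟨x, hx, rfl⟩ | ⟨x, hx, rfl⟩
      · exact ⟨i, ⟨x, hx, shadowAt_cons_succ.mp (shadowAt_cons_succ.mp h)⟩, rfl⟩
      · have h1 := shadowAt_cons_succ.mp (shadowAt_cons_succ.mp h)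
        have h2 : i ∈ Sh cs (cs.simple b * v) := ⟨x, hx, h1⟩
        rw [Sh_single T.dvb hs] at h2
        obtain ⟨j, ⟨y, hy, h3⟩, rfl⟩ := h2
        rw [cs.simple_mul_simple_cancel_left] at hy
        exact ⟨_, ⟨a :: y, T.memH hy, shadowAt_cons_succ.mpr h3⟩, rfl⟩
  · rintro (rfl | ⟨i, ⟨x, hx, h⟩, rfl⟩)
    · exact ⟨a :: b :: a :: h₀, T.mem₁ (T.memH hh₀), shadowAt_zero.mpr ⟨h₀, a, b, T.E, rfl⟩⟩
    · exact ⟨a :: b :: x, T.mem₁ hx, shadowAt_cons_succ.mpr (shadowAt_cons_succ.mpr h)⟩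

lemma head_lemma {g : W} {a : B} {n : ℕ} {φ : List B → Fin n → Bool} {P Q : List B}
    (hM : ThreeInf M) (ha : Ds cs g a) (h : EP cs g n φ P Q) :
    ∃ (P' Q' : List B), P' ∈ RW cs g ∧ Q' ∈ RW cs (cs.simple a * g) ∧
      (Gr M).dist P' (a :: Q') = n := by
  by_cases h2 : ∃ b, Ds cs g b ∧ b ≠ a
  · obtain ⟨b, hb, hba⟩ := h2
    obtain ⟨v, T⟩ := exists_Two hM hba.symm ha hb
    have hsep := h.sep a b hba.symm ha hb
    rcases T.cov hM h.mP with ⟨x, hx, h1⟩ | ⟨x, hx, h1⟩
    · refine ⟨Q, b :: x, h.mQ, T.mem₁' hx, ?_⟩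
      rw [← h1, (Gr M).dist_comm]; exact h.anti
    · rcases T.cov hM h.mQ with ⟨y, hy, h3⟩ | ⟨y, hy, h3⟩
      · refine ⟨P, b :: y, h.mP, T.mem₁' hy, ?_⟩
        rw [← h3]; exact h.anti
      · exfalso
        apply hsep
        rw [h1, h3]; rfl
  · push Not at h2
    obtain ⟨x, hx, hx'⟩ := single_cov ha h2 h.mQ
    exact ⟨P, x, h.mP, hx', by rw [← hx]; exact h.anti⟩

lemma EP_two (hM : ThreeInf M) {g v : W} {a b : B} (T : Two cs g v a b)
    (hs : ∀ c, Ds cs (cs.simple b * v) c → c = b)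
    (Pa : PP cs (cs.simple a * v)) (Pb : PP cs (cs.simple b * v))
    {n : ℕ} {φ : List B → Fin n → Bool} {P Q : List B} (h : EP cs (cs.simple a * v) n φ P Q) :
    ∃ (φ' : List B → Fin (n + 1) → Bool) (P' Q' : List B), EP cs g (n + 1) φ' P' Q' := by
  obtain ⟨π₁, π₂, A⟩ := exists_amalgam hM T Pa Pb
  have ia := Pa.iso a T.dva
  have ib := Pb.iso b T.dvb
  rw [cs.simple_mul_simple_cancel_left] at ia ib
  have cov : ∀ x ∈ RW cs g, (∃ y ∈ RW cs (cs.simple a * v), x = a :: b :: y) ∨
      (∃ y ∈ RW cs v, x = b :: a :: b :: y) := by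
    intro x hx
    rcases T.cov hM hx with ⟨y, hy, rfl⟩ | ⟨y, hy, rfl⟩
    · exact Or.inl ⟨y, hy, rfl⟩
    · obtain ⟨z, rfl, hz⟩ := single_cov T.dvb hs hy
      rw [cs.simple_mul_simple_cancel_left] at hz
      exact Or.inr ⟨z, hz, rfl⟩
  have dc : ∀ x ∈ RW cs (cs.simple a * v), ∀ y ∈ RW cs v,
      (Gr M).dist (a :: b :: x) (b :: a :: b :: y) = (Gr M).dist x (a :: y) + 1 := by
    intro x hx y hy
    have hby := T.swap.memH hy
    have e1 := A.dist₁₂ hx hby
    have e2 := (A.p₂ _ hby).2 y hy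
    simp only [SimpleGraph.dist_self] at e2
    have e3 : (Gr M).dist (π₂ (b :: y)) y = 0 := by omega
    have e4 : (Gr M).dist (a :: π₂ (b :: y)) (a :: y) = 0 := by
      rw [ia _ (A.p₂ _ hby).1 _ hy, e3]
    have e5 : a :: π₂ (b :: y) = a :: y := by
      have hr : (Gr M).Reachable (a :: π₂ (b :: y)) (a :: y) :=
        Pa.reach _ (T.memH (A.p₂ _ hby).1) _ (T.memH hy)
      exact (hr.dist_eq_zero_iff).mp e4
    have e6 : π₂ (b :: y) = y := (List.cons.inj e5).2
    change (Gr M).dist (a :: b :: x) (b :: a :: b :: y) =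
      (Gr M).dist x (a :: π₂ (b :: y)) + 1 + (Gr M).dist (b :: π₂ (b :: y)) (b :: y) at e1
    rw [e6, SimpleGraph.dist_self, add_zero] at e1
    exact e1
  obtain ⟨P', Q', hP', hQ', hPQ⟩ := head_lemma hM T.dva h
  rw [cs.simple_mul_simple_cancel_left] at hQ'
  refine ⟨fun x => if x.head? = some a then Fin.cons false (φ (x.drop 2))
    else Fin.cons true (φ (a :: x.drop 3)), a :: b :: P', b :: a :: b :: Q', ?_⟩
  have hba : ¬ (some b = some a) := fun h => T.hab (Option.some.inj h).symm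
  exact
    { mP := T.mem₁ hP'
      mQ := T.swap.mem₁ (T.swap.memH hQ')
      ham := by
        intro x hx y hy
        rcases cov x hx with ⟨x, kx, rfl⟩ | ⟨x, kx, rfl⟩ <;>
          rcases cov y hy with ⟨y, ky, rfl⟩ | ⟨y, ky, rfl⟩
        · simp only [List.head?_cons, if_true, List.drop_succ_cons, List.drop_zero]
          rw [hammingDist_cons, if_pos rfl, h.ham x kx y ky, A.dist₁ kx ky, zero_add]
        · simp only [List.head?_cons, if_true, List.drop_succ_cons, List.drop_zero, if_neg hba]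
          rw [hammingDist_cons, if_neg (by simp), h.ham x kx _ (T.memH ky), dc x kx y ky, add_comm]
        · simp only [List.head?_cons, if_true, List.drop_succ_cons, List.drop_zero, if_neg hba]
          rw [hammingDist_cons, if_neg (by simp), h.ham _ (T.memH kx) _ ky,
            (Gr M).dist_comm (u := b :: a :: b :: x), dc y ky x kx, (Gr M).dist_comm, add_comm]
        · simp only [List.head?_cons, List.drop_succ_cons, List.drop_zero, if_neg hba]
          rw [hammingDist_cons, if_pos rfl, h.ham _ (T.memH kx) _ (T.memH ky), ia x kx y ky,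
            zero_add]
          have := A.swap.dist₁ (T.swap.memH kx) (T.swap.memH ky)
          change (Gr M).dist (b :: a :: b :: x) (b :: a :: b :: y) = _ at this
          rw [this, ib x kx y ky]
      anti := by rw [dc P' hP' Q' hQ', hPQ]
      sep := fun _ _ _ _ _ h => T.hab (Option.some.inj h)
      fin := by rw [Sh_two hM T hs]; exact (h.fin.image _).insert _
      card := by
        rw [Sh_two hM T hs, Set.ncard_insert_of_notMem _ (h.fin.image _),
          Set.ncard_image_of_injective _ (fun i j h => by simpa using h), h.card]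
        rintro ⟨i, _, hi⟩
        simp at hi }

/-- **The structure theorem in the triangle-free case.** -/
theorem EP_all (hM : ThreeInf M) (hT : TriFree M) : ∀ n : ℕ, ∀ g : W, cs.length g ≤ n →
    ∃ (k : ℕ) (φ : List B → Fin k → Bool) (P Q : List B), EP cs g k φ P Q := by
  intro n
  induction n with
  | zero =>
    intro g hg
    have : g = 1 := cs.length_eq_zero_iff.mp (by omega)
    rw [this]
    exact ⟨_, _, _, _, EP_one⟩
  | succ n ih =>
    intro g hg
    by_cases h1 : g = 1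
    · rw [h1]; exact ⟨_, _, _, _, EP_one⟩
    obtain ⟨a, ha⟩ := exists_Ds (cs := cs) h1
    have hla := ha.length
    by_cases h2 : ∃ b, Ds cs g b ∧ b ≠ a
    · obtain ⟨b, hb, hba⟩ := h2
      obtain ⟨v, T⟩ := exists_Two hM hba.symm ha hb
      have hl := T.len
      have l1 := T.la
      have l2 := T.lb
      have Pa := PP_all (cs := cs) hM _ (cs.simple a * v) le_rfl
      have Pb := PP_all (cs := cs) hM _ (cs.simple b * v) le_rfl
      rcases small_side hM hT T with hs | hs
      · obtain ⟨k, φ, P, Q, h⟩ := ih (cs.simple b * v) (by omega)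
        obtain ⟨φ', P', Q', h'⟩ := EP_two hM T.swap hs Pb Pa h
        exact ⟨_, φ', P', Q', h'⟩
      · obtain ⟨k, φ, P, Q, h⟩ := ih (cs.simple a * v) (by omega)
        obtain ⟨φ', P', Q', h'⟩ := EP_two hM T hs Pa Pb h
        exact ⟨_, φ', P', Q', h'⟩
    · push Not at h2
      obtain ⟨k, φ, P, Q, h⟩ := ih (cs.simple a * g) (by omega)
      exact ⟨_, _, _, _, EP_single ha h2 (PP_all (cs := cs) hM _ g le_rfl) h⟩

end Pool.Agent.Q250.Braid
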