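import Pool.Agent.Q250.Braid.Median

set_option autoImplicit false

namespace Pool.Agent.Q250.Braid

open SimpleGraph

variable {B : Type*} {M : CoxeterMatrix B} {W : Type*} [Group W] {cs : CoxeterSystem M W}

open Classical in
/-- Entries of the modified matrix. -/
noncomputable def rmE (M : CoxeterMatrix B) (α : List B) (i j : {b // b ∈ α}) : ℕ :=
  if i = j then 1 else if M i j = 3 then 3 else 0

lemma rmE_self (α : List B) (i : {b // b ∈ α}) : rmE M α i i = 1 := by
  unfold rmE; rw [if_pos rfl]

lemma rmE_three (α : List B) {i j : {b // b ∈ α}} (h : M i j = 3) : rmE M α i j = 3 := by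
  have hij : i ≠ j := by
    rintro rfl
    rw [M.diagonal] at h
    omega
  unfold rmE; rw [if_neg hij, if_pos h]

lemma rmE_zero (α : List B) {i j : {b // b ∈ α}} (hij : i ≠ j) (h : ¬ M i j = 3) :
    rmE M α i j = 0 := by
  unfold rmE; rw [if_neg hij, if_neg h]

/-- The Coxeter matrix on the letters of `α` with `2` replaced by infinity. -/
noncomputable def rm (M : CoxeterMatrix B) (α : List B) : CoxeterMatrix {b // b ∈ α} where
  M := Matrix.of (rmE M α)
  isSymm := by
    ext i j
    change rmE M α j i = rmE M α i j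
    by_cases h : i = j
    · subst h; rfl
    · by_cases h3 : M i j = 3
      · rw [rmE_three α h3, rmE_three α (by rw [M.symmetric]; exact h3)]
      · rw [rmE_zero α h h3, rmE_zero α (Ne.symm h) (by rw [M.symmetric]; exact h3)]
  diagonal i := rmE_self α i
  off_diagonal i i' h := by
    change rmE M α i i' ≠ 1
    by_cases h3 : M i i' = 3
    · rw [rmE_three α h3]; norm_num
    · rw [rmE_zero α h h3]; norm_num

lemma rm_apply (α : List B) (i j : {b // b ∈ α}) : rm M α i j = rmE M α i j := rfl

lemma rm_E3 (α : List B) (s t : {b // b ∈ α}) : E3 (rm M α) s t ↔ E3 M s t := by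
  unfold E3
  rw [rm_apply]
  by_cases h : s = t
  · subst h
    rw [rmE_self, M.diagonal]
  · by_cases h3 : M s t = 3
    · rw [rmE_three α h3]; simp [h3]
    · rw [rmE_zero α h h3]; simp [h3]

lemma rm_threeInf (α : List B) : ThreeInf (rm M α) := by
  intro s t h
  rw [rm_apply]
  by_cases h3 : M s t = 3
  · exact Or.inl (rmE_three α h3)
  · exact Or.inr (rmE_zero α h h3)

/-- The comparison map. -/
noncomputable def cmp (cs : CoxeterSystem M W) (α : List B) : (rm M α).Group →* W :=
  (rm M α).toCoxeterSystem.lift ⟨fun i => cs.simple i, by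
    intro i j
    rw [rm_apply]
    by_cases h : i = j
    · subst h; rw [rmE_self, pow_one, cs.simple_mul_simple_self]
    · by_cases h3 : M i j = 3
      · rw [rmE_three α h3, ← h3]; exact cs.simple_mul_simple_pow i j
      · rw [rmE_zero α h h3, pow_zero]⟩

lemma cmp_wordProd (α : List B) (x : List {b // b ∈ α}) :
    cmp cs α ((rm M α).toCoxeterSystem.wordProd x) = cs.wordProd (x.map Subtype.val) := by
  induction x with
  | nil => simp
  | cons a x ih =>
    rw [CoxeterSystem.wordProd_cons, map_mul, ih, List.map_cons, CoxeterSystem.wordProd_cons]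
    congr 1
    exact (rm M α).toCoxeterSystem.lift_apply_simple _ a

lemma reduced_attach {α : List B} (h : cs.IsReduced α) :
    (rm M α).toCoxeterSystem.IsReduced α.attach := by
  set cs' := (rm M α).toCoxeterSystem with hcs'
  unfold CoxeterSystem.IsReduced at *
  apply le_antisymm (cs'.length_wordProd_le _)
  obtain ⟨ω, h1, h2⟩ := cs'.exists_isReduced (cs'.wordProd α.attach)
  unfold CoxeterSystem.IsReduced at h1
  have e : cs.wordProd (ω.map Subtype.val) = cs.wordProd α := by
    rw [← cmp_wordProd, ← hcs', ← h2, hcs', cmp_wordProd, List.attach_map_subtype_val]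
  have h3 := cs.length_wordProd_le (ω.map Subtype.val)
  rw [e, h, List.length_map] at h3
  rw [h2, h1, List.length_attach]
  exact h3

/-- Braid moves and injective relabelling. -/
lemma br_map (α : List B) (x y : List {b // b ∈ α}) :
    Br (E3 (rm M α)) x y ↔ Br (E3 M) (x.map Subtype.val) (y.map Subtype.val) := by
  constructor
  · rintro ⟨u, v, s, t, h, rfl, rfl⟩
    exact ⟨u.map Subtype.val, v.map Subtype.val, s, t, (rm_E3 α s t).mp h, by simp, by simp⟩
  · rintro ⟨u, v, s, t, h, hx, hy⟩
    have hinj : Function.Injective (List.map (Subtype.val : {b // b ∈ α} → B)) :=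
      List.map_injective_iff.mpr Subtype.val_injective
    rw [List.map_eq_append_iff] at hx
    obtain ⟨u', v', rfl, hu, rfl⟩ := hx
    rw [List.map_eq_append_iff] at hu
    obtain ⟨u'', w', rfl, rfl, hw⟩ := hu
    obtain ⟨s', w2, rfl, rfl, hw2⟩ := List.map_eq_cons_iff.mp hw
    obtain ⟨t', w3, rfl, rfl, hw3⟩ := List.map_eq_cons_iff.mp hw2
    obtain ⟨r', w4, rfl, hr, hw4⟩ := List.map_eq_cons_iff.mp hw3
    have hr' := Subtype.val_injective hr
    rw [List.map_eq_nil_iff] at hw4
    subst hw4 hr'
    refine ⟨u'', v', r', t', (rm_E3 α _ _).mpr h, by simp, ?_⟩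
    apply hinj
    rw [hy]
    simp

lemma br_map_left (α : List B) (x : List {b // b ∈ α}) (z : List B)
    (h : Br (E3 M) (x.map Subtype.val) z) : ∃ y : List {b // b ∈ α}, z = y.map Subtype.val := by
  obtain ⟨u, v, s, t, h, hx, hy⟩ := h
  rw [List.map_eq_append_iff] at hx
  obtain ⟨u', v', rfl, hu, rfl⟩ := hx
  rw [List.map_eq_append_iff] at hu
  obtain ⟨u'', w', rfl, rfl, hw⟩ := hu
  obtain ⟨s', w2, rfl, rfl, hw2⟩ := List.map_eq_cons_iff.mp hw
  obtain ⟨t', w3, rfl, rfl, hw3⟩ := List.map_eq_cons_iff.mp hw2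
  exact ⟨u'' ++ [t', s', t'] ++ v', by rw [hy]; simp⟩

/-- The braid class in terms of reduced words of the modified system. -/
lemma class_iff {α : List B} (h : cs.IsReduced α) (β : List B) :
    Relation.ReflTransGen (Br (E3 M)) α β ↔
      ∃ x ∈ RW (rm M α).toCoxeterSystem ((rm M α).toCoxeterSystem.wordProd α.attach),
        β = x.map Subtype.val := by
  classical
  have hα : α.attach ∈ RW (rm M α).toCoxeterSystem
      ((rm M α).toCoxeterSystem.wordProd α.attach) := ⟨reduced_attach h, rfl⟩
  constructor
  · intro hβ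
    induction hβ with
    | refl => exact ⟨α.attach, hα, by simp⟩
    | tail _ h2 ih =>
      obtain ⟨x, hx, rfl⟩ := ih
      obtain ⟨y, rfl⟩ := br_map_left α x _ h2
      exact ⟨y, RW_closed hx ((br_map α x y).mpr h2), rfl⟩
  · rintro ⟨x, hx, rfl⟩
    have hP := PP_all (cs := (rm M α).toCoxeterSystem) (rm_threeInf α) _
      ((rm M α).toCoxeterSystem.wordProd α.attach) le_rfl
    obtain ⟨w⟩ := hP.reach _ hα x hx
    have key : ∀ (a b : List {b // b ∈ α}), (Gr (rm M α)).Walk a b →
        Relation.ReflTransGen (Br (E3 M)) (a.map Subtype.val) (b.map Subtype.val) := by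
      intro a b w
      induction w with
      | nil => exact Relation.ReflTransGen.refl
      | cons hadj _ ih => exact Relation.ReflTransGen.head ((br_map α _ _).mp hadj) ih
    have := key _ _ w
    rwa [List.attach_map_subtype_val] at this

/-- The braid class as a type. -/
abbrev Cls (M : CoxeterMatrix B) (α : List B) : Type _ :=
  {β : List B // Relation.ReflTransGen (Br (E3 M)) α β}

/-- Distances in a graph on the braid class whose adjacency is the braid move relation. -/
lemma dist_transfer {α : List B} (h : cs.IsReduced α) (G : SimpleGraph (Cls M α))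
    (hG : ∀ β γ, G.Adj β γ ↔ Br (E3 M) β.1 γ.1) (x y : List {b // b ∈ α})
    (β γ : Cls M α) (hβ : β.1 = x.map Subtype.val) (hγ : γ.1 = y.map Subtype.val) :
    G.Reachable β γ ∧ G.dist β γ = (Gr (rm M α)).dist x y := by
  classical
  have hinj : Function.Injective (List.map (Subtype.val : {b // b ∈ α} → B)) :=
    List.map_injective_iff.mpr Subtype.val_injective
  have hP := PP_all (cs := (rm M α).toCoxeterSystem) (rm_threeInf α) _
      ((rm M α).toCoxeterSystem.wordProd α.attach) le_rfl
  have hcl := fun β : Cls M α => (class_iff h β.1).mp β.2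
  choose pre hpre hpre2 using hcl
  have e := dist_eq_of (G := G) Set.univ (fun β γ => (Gr (rm M α)).dist (pre β) (pre γ))
    (fun _ _ _ _ => trivial) (fun _ _ => (Gr (rm M α)).dist_self) ?_ ?_
    (Set.mem_univ β) (Set.mem_univ γ)
  · have e1 : pre β = x := hinj (by rw [← hpre2, hβ])
    have e2 : pre γ = y := hinj (by rw [← hpre2, hγ])
    rw [← e1, ← e2]
    exact e
  · intro β _ γ _ γ' hadj
    rw [hG, hpre2 γ, hpre2 γ', ← br_map] at hadj
    exact dist_adj_le (hP.reach _ (hpre β) _ (hpre γ)) hadj
  · intro β _ γ _ hne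
    have hne' : pre β ≠ pre γ := by
      intro he
      apply hne
      apply Subtype.ext
      rw [hpre2 β, hpre2 γ, he]
    obtain ⟨z, hadj, hd⟩ := exists_adj_dist (hP.reach _ (hpre β) _ (hpre γ)) hne'
    have hz : z ∈ RW (rm M α).toCoxeterSystem
        ((rm M α).toCoxeterSystem.wordProd α.attach) := RW_closed (hpre γ) hadj
    refine ⟨⟨z.map Subtype.val, (class_iff h _).mpr ⟨z, hz, rfl⟩⟩, ?_, ?_⟩
    · rw [hG, hpre2 γ, ← br_map]; exact hadj
    · have e3 : pre ⟨z.map Subtype.val, (class_iff h _).mpr ⟨z, hz, rfl⟩⟩ = z :=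
        hinj (by rw [← hpre2])
      rw [e3]; exact hd

end Pool.Agent.Q250.Braid
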