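import Pool.Agent.Q250.Braid.Lambda
import Pool.Agent.Q250.Braid.Transfer

set_option autoImplicit false

namespace Pool.Agent.Q250.Braid

open SimpleGraph

variable {B : Type*} {M : CoxeterMatrix B} {W : Type*} [Group W] {cs : CoxeterSystem M W}

lemma rm_triFree (hT : TriFree M) (α : List B) : TriFree (rm M α) := by
  intro s t u h1 h2 h3
  exact hT _ _ _ ((rm_E3 α s t).mp h1) ((rm_E3 α t u).mp h2) ((rm_E3 α s u).mp h3)

lemma shadowAt_map (α : List B) (x : List {b // b ∈ α}) (i : ℕ) :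
    ShadowAt (E3 (rm M α)) x i ↔ ShadowAt (E3 M) (x.map Subtype.val) i := by
  constructor
  · rintro ⟨u, v, s, t, h, rfl, h2⟩
    exact ⟨u.map Subtype.val, v.map Subtype.val, s, t, (rm_E3 α s t).mp h, by simp, by simpa using h2⟩
  · rintro ⟨u, v, s, t, h, hx, h2⟩
    rw [List.map_eq_append_iff] at hx
    obtain ⟨u', v', rfl, hu, rfl⟩ := hx
    rw [List.map_eq_append_iff] at hu
    obtain ⟨u'', w', rfl, rfl, hw⟩ := hu
    obtain ⟨s', w2, rfl, rfl, hw2⟩ := List.map_eq_cons_iff.mp hw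
    obtain ⟨t', w3, rfl, rfl, hw3⟩ := List.map_eq_cons_iff.mp hw2
    obtain ⟨r', w4, rfl, hr, hw4⟩ := List.map_eq_cons_iff.mp hw3
    have hr' := Subtype.val_injective hr
    rw [List.map_eq_nil_iff] at hw4
    subst hw4 hr'
    exact ⟨u'', v', r', t', (rm_E3 α _ _).mpr h, by simp, by simpa using h2⟩

/-- **Structure of braid graphs in type `Λ`**, for any graph on the braid class whose adjacency
is the braid move relation. -/
theorem lambda_main (hT : TriFree M) {α : List B} (h : cs.IsReduced α)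
    (G : SimpleGraph (Cls M α)) (hG : ∀ β γ, G.Adj β γ ↔ Br (E3 M) β.1 γ.1) :
    G.Connected ∧ ∃ (n : ℕ) (ψ : Cls M α → Fin n → Bool) (P Q : Cls M α),
      (∀ β γ, hammingDist (ψ β) (ψ γ) = G.dist β γ) ∧ G.dist P Q = n ∧
      {i | ∃ β : Cls M α, ShadowAt (E3 M) β.1 i}.ncard = n := by
  classical
  have hinj : Function.Injective (List.map (Subtype.val : {b // b ∈ α} → B)) :=
    List.map_injective_iff.mpr Subtype.val_injective
  have hcl := fun β : Cls M α => (class_iff h β.1).mp β.2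
  choose pre hpre hpre2 using hcl
  have hD : ∀ β γ : Cls M α, G.Reachable β γ ∧
      G.dist β γ = (Gr (rm M α)).dist (pre β) (pre γ) := fun β γ =>
    dist_transfer h G hG (pre β) (pre γ) β γ (hpre2 β) (hpre2 γ)
  have hsurj : ∀ x ∈ RW (rm M α).toCoxeterSystem
      ((rm M α).toCoxeterSystem.wordProd α.attach), ∃ β : Cls M α,
        β.1 = x.map Subtype.val ∧ pre β = x := by
    intro x hx
    let β : Cls M α := ⟨x.map Subtype.val, (class_iff h _).mpr ⟨x, hx, rfl⟩⟩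
    exact ⟨β, rfl, hinj (hpre2 β).symm⟩
  have hne : Nonempty (Cls M α) := ⟨⟨α, Relation.ReflTransGen.refl⟩⟩
  refine ⟨⟨fun β γ => (hD β γ).1⟩, ?_⟩
  obtain ⟨n, φ, P, Q, hE⟩ := EP_all (cs := (rm M α).toCoxeterSystem) (rm_threeInf α)
    (rm_triFree hT α) _ ((rm M α).toCoxeterSystem.wordProd α.attach) le_rfl
  obtain ⟨P', hP1, hP2⟩ := hsurj P hE.mP
  obtain ⟨Q', hQ1, hQ2⟩ := hsurj Q hE.mQ
  refine ⟨n, fun β => φ (pre β), P', Q', ?_, ?_, ?_⟩
  · intro β γ
    rw [(hD β γ).2]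
    exact hE.ham _ (hpre β) _ (hpre γ)
  · rw [(hD P' Q').2, hP2, hQ2]
    exact hE.anti
  · rw [← hE.card]
    congr 1
    ext i
    constructor
    · rintro ⟨β, hβ⟩
      refine ⟨pre β, hpre β, ?_⟩
      rw [shadowAt_map, ← hpre2]
      exact hβ
    · rintro ⟨x, hx, hi⟩
      obtain ⟨β, h1, _⟩ := hsurj x hx
      refine ⟨β, ?_⟩
      rw [h1, ← shadowAt_map]
      exact hi

end Pool.Agent.Q250.Braid
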