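import Pool.Agent.Q250.Braid.Words

set_option autoImplicit false

namespace Pool.Agent.Q250.Braid

open SimpleGraph

variable {B : Type*} {M : CoxeterMatrix B} {W : Type*} [Group W] {cs : CoxeterSystem M W}

/-- The graph of all words with braid moves. -/
def Gr (M : CoxeterMatrix B) : SimpleGraph (List B) :=
  wg (E3 M) (fun _ _ h => h.symm) (fun s => E3_irrefl s)

lemma Gr_adj {x y : List B} : (Gr M).Adj x y ↔ Br (E3 M) x y := Iff.rfl

lemma Gr_cons (a : B) {x y : List B} : (Gr M).Adj (a :: x) (a :: y) ↔ (Gr M).Adj x y := by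
  rw [Gr_adj, Gr_adj, br_cons_cons]
  constructor
  · rintro (⟨_, h⟩ | ⟨h, _⟩)
    · exact h
    · exact absurd h (E3_irrefl a)
  · exact fun h => Or.inl ⟨rfl, h⟩

lemma RW_one {x : List B} (h : x ∈ RW cs 1) : x = [] := by
  have h1 := h.1
  unfold CoxeterSystem.IsReduced at h1
  rw [h.2, cs.length_one] at h1
  exact List.length_eq_zero_iff.mp h1.symm

variable (cs) in
/-- The properties proved by induction. -/
structure PP (g : W) : Prop where
  reach : ∀ x ∈ RW cs g, ∀ y ∈ RW cs g, (Gr M).Reachable x y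
  med : HasMed (Gr M) (RW cs g)
  iso : ∀ a, Ds cs g a → ∀ x ∈ RW cs (cs.simple a * g), ∀ y ∈ RW cs (cs.simple a * g),
    (Gr M).dist (a :: x) (a :: y) = (Gr M).dist x y
  gate : ∀ a, Ds cs g a → ∃ π : List B → List B, ∀ y ∈ RW cs g,
    π y ∈ RW cs (cs.simple a * g) ∧ ∀ x ∈ RW cs (cs.simple a * g),
      (Gr M).dist y (a :: x) = (Gr M).dist y (a :: π y) + (Gr M).dist (π y) x

lemma PP_one : PP cs (1 : W) where
  reach x hx y hy := by rw [RW_one hx, RW_one hy]
  med u hu v hv w hw := by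
    rw [RW_one hu, RW_one hv, RW_one hw]
    refine ⟨[], ⟨RW_one hu ▸ hu, ?_, ?_, ?_⟩, fun m hm => RW_one hm.1⟩ <;> simp [Btw]
  iso a ha := by
    unfold Ds at ha; rw [cs.length_one] at ha; omega
  gate a ha := by
    unfold Ds at ha; rw [cs.length_one] at ha; omega

/-- One descent. -/
lemma PP_single {g : W} {a : B} (ha : Ds cs g a) (huniq : ∀ c, Ds cs g c → c = a)
    (ih : PP cs (cs.simple a * g)) : PP cs g := by
  have cov : ∀ x ∈ RW cs g, ∃ x', x = a :: x' ∧ x' ∈ RW cs (cs.simple a * g) := by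
    intro x hx
    rcases mem_RW_cases hx with ⟨_, h⟩ | ⟨c, x', rfl, hc, hx'⟩
    · exfalso
      rw [h] at ha
      unfold Ds at ha; rw [cs.length_one] at ha; omega
    · obtain rfl := huniq c hc
      exact ⟨x', rfl, hx'⟩
  have mm : ∀ x' ∈ RW cs (cs.simple a * g), a :: x' ∈ RW cs g := fun x' hx' =>
    cons_mem_RW.mpr ⟨ha, hx'⟩
  have key : ∀ x ∈ RW cs g, ∀ y ∈ RW cs g, (Gr M).Reachable x y ∧
      (Gr M).dist x y = (Gr M).dist x.tail y.tail := by
    intro x hx y hy
    refine dist_eq_of (RW cs g) (fun x y => (Gr M).dist x.tail y.tail)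
      (fun x hx y h => RW_closed hx h) ?_ ?_ ?_ hx hy
    · intro x _
      exact (Gr M).dist_self
    · intro x hx y hy y' hadj
      obtain ⟨x', rfl, hx'⟩ := cov x hx
      obtain ⟨y₁, rfl, hy₁⟩ := cov y hy
      obtain ⟨y₂, rfl, hy₂⟩ := cov y' (RW_closed hy hadj)
      exact dist_adj_le (ih.reach x' hx' y₁ hy₁) ((Gr_cons a).mp hadj)
    · intro x hx y hy hne
      obtain ⟨x', rfl, hx'⟩ := cov x hx
      obtain ⟨y₁, rfl, hy₁⟩ := cov y hy
      obtain ⟨y', hadj, hd⟩ := exists_adj_dist (ih.reach x' hx' y₁ hy₁)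
        (fun h => hne (by rw [h]))
      exact ⟨a :: y', (Gr_cons a).mpr hadj, hd⟩
  have iso : ∀ x ∈ RW cs (cs.simple a * g), ∀ y ∈ RW cs (cs.simple a * g),
      (Gr M).dist (a :: x) (a :: y) = (Gr M).dist x y := fun x hx y hy =>
    (key _ (mm x hx) _ (mm y hy)).2
  refine ⟨fun x hx y hy => (key x hx y hy).1, ?_, ?_, ?_⟩
  · intro u hu v hv w hw
    obtain ⟨u, rfl, hu'⟩ := cov u hu
    obtain ⟨v, rfl, hv'⟩ := cov v hv
    obtain ⟨w, rfl, hw'⟩ := cov w hw
    obtain ⟨m, ⟨hm, h1, h2, h3⟩, hun⟩ := ih.med u hu' v hv' w hw'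
    refine ⟨a :: m, ⟨mm m hm, ?_, ?_, ?_⟩, ?_⟩
    · unfold Btw at *; rwa [iso _ hu' _ hm, iso _ hm _ hv', iso _ hu' _ hv']
    · unfold Btw at *; rwa [iso _ hv' _ hm, iso _ hm _ hw', iso _ hv' _ hw']
    · unfold Btw at *; rwa [iso _ hu' _ hm, iso _ hm _ hw', iso _ hu' _ hw']
    · rintro m' ⟨hm', k1, k2, k3⟩
      obtain ⟨n, rfl, hn⟩ := cov m' hm'
      rw [hun n ⟨hn, ?_, ?_, ?_⟩]
      · unfold Btw at *; rwa [iso _ hu' _ hn, iso _ hn _ hv', iso _ hu' _ hv'] at k1
      · unfold Btw at *; rwa [iso _ hv' _ hn, iso _ hn _ hw', iso _ hv' _ hw'] at k2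
      · unfold Btw at *; rwa [iso _ hu' _ hn, iso _ hn _ hw', iso _ hu' _ hw'] at k3
  · intro c hc
    obtain rfl := huniq c hc
    exact iso
  · intro c hc
    obtain rfl := huniq c hc
    refine ⟨List.tail, fun y hy => ?_⟩
    obtain ⟨y', rfl, hy'⟩ := cov y hy
    refine ⟨hy', fun x hx => ?_⟩
    rw [iso y' hy' x hx]
    simp

variable [Fintype B] [DecidableEq B]

/-- The basic facts around two descents. -/
structure Two (cs : CoxeterSystem M W) (g v : W) (a b : B) : Prop where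
  hab : a ≠ b
  E : E3 M a b
  da : Ds cs g a
  db : Ds cs g b
  dab : Ds cs (cs.simple a * g) b
  dba : Ds cs (cs.simple b * g) a
  dva : Ds cs (cs.simple a * v) a
  dvb : Ds cs (cs.simple b * v) b
  ea : cs.simple b * (cs.simple a * g) = cs.simple a * v
  eb : cs.simple a * (cs.simple b * g) = cs.simple b * v
  len : cs.length g = cs.length v + 3
  la : cs.length (cs.simple a * v) = cs.length v + 1
  lb : cs.length (cs.simple b * v) = cs.length v + 1

lemma Two.swap {g v : W} {a b : B} (T : Two cs g v a b) : Two cs g v b a :=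
  ⟨T.hab.symm, T.E.symm, T.db, T.da, T.dba, T.dab, T.dvb, T.dva, T.eb, T.ea, T.len, T.lb, T.la⟩

lemma exists_Two (hM : ThreeInf M) {g : W} {a b : B} (hab : a ≠ b) (ha : Ds cs g a)
    (hb : Ds cs g b) : ∃ v, Two cs g v a b := by
  obtain ⟨hE, v, h1, h2, h3⟩ := two_desc hM hab ha hb
  have hla := ha.length
  have hlb := hb.length
  have sv : ∀ x : B, ∀ w : W, cs.length (cs.simple x * w) ≤ cs.length w + 1 := fun x w => by
    rcases cs.length_simple_mul w x with h | h <;> omega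
  have sv' : ∀ x : B, ∀ w : W, cs.length w ≤ cs.length (cs.simple x * w) + 1 := fun x w => by
    rcases cs.length_simple_mul w x with h | h <;> omega
  have e1 : cs.simple b * (cs.simple a * g) = cs.simple a * v := by
    rw [h1, cs.simple_mul_simple_cancel_left]
  have e2 : cs.simple a * (cs.simple b * g) = cs.simple b * v := by
    rw [h2, cs.simple_mul_simple_cancel_left]
  have a1 := sv' b (cs.simple a * g)
  have a2 := sv a v
  have b1 := sv' a (cs.simple b * g)
  have b2 := sv b v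
  rw [e1] at a1
  rw [e2] at b1
  refine ⟨v, hab, hE, ha, hb, ?_, ?_, ?_, ?_, e1, e2, h3, by omega, by omega⟩
  · unfold Ds; rw [e1]; omega
  · unfold Ds; rw [e2]; omega
  · unfold Ds; rw [cs.simple_mul_simple_cancel_left]; omega
  · unfold Ds; rw [cs.simple_mul_simple_cancel_left]; omega

namespace Two

variable {g v : W} {a b : B}

lemma desc (hM : ThreeInf M) (T : Two cs g v a b) {c : B} (hc : Ds cs g c) : c = a ∨ c = b := by
  by_cases hca : c = a
  · exact Or.inl hca
  · exact Or.inr (no_third hM _ g le_rfl a c b (Ne.symm hca) T.da hc T.dab).symm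

lemma desc' (hM : ThreeInf M) (T : Two cs g v a b) {c : B} (hc : Ds cs (cs.simple a * g) c) :
    c = b :=
  no_third hM _ g le_rfl a b c T.hab T.da T.db hc

lemma mem₁ (T : Two cs g v a b) {x : List B} (hx : x ∈ RW cs (cs.simple a * v)) :
    a :: b :: x ∈ RW cs g := by
  rw [cons_mem_RW, cons_mem_RW]
  exact ⟨T.da, T.dab, T.ea ▸ hx⟩

lemma mem₁' (T : Two cs g v a b) {x : List B} (hx : x ∈ RW cs (cs.simple a * v)) :
    b :: x ∈ RW cs (cs.simple a * g) := by
  rw [cons_mem_RW]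
  exact ⟨T.dab, T.ea ▸ hx⟩

lemma cov' (hM : ThreeInf M) (T : Two cs g v a b) {x : List B}
    (hx : x ∈ RW cs (cs.simple a * g)) : ∃ y ∈ RW cs (cs.simple a * v), x = b :: y := by
  rcases mem_RW_cases hx with ⟨_, h⟩ | ⟨c, x', rfl, hc, hx'⟩
  · exfalso
    have := T.dab
    unfold Ds at this
    rw [h, cs.length_one] at this
    omega
  · obtain rfl := T.desc' hM hc
    exact ⟨x', T.ea ▸ hx', rfl⟩

lemma cov (hM : ThreeInf M) (T : Two cs g v a b) {x : List B} (hx : x ∈ RW cs g) :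
    (∃ y ∈ RW cs (cs.simple a * v), x = a :: b :: y) ∨
      (∃ y ∈ RW cs (cs.simple b * v), x = b :: a :: y) := by
  rcases mem_RW_cases hx with ⟨_, h⟩ | ⟨c, x', rfl, hc, hx'⟩
  · exfalso
    have := T.da
    unfold Ds at this
    rw [h, cs.length_one] at this
    omega
  · rcases T.desc hM hc with rfl | rfl
    · obtain ⟨y, hy, rfl⟩ := T.cov' hM hx'
      exact Or.inl ⟨y, hy, rfl⟩
    · obtain ⟨y, hy, rfl⟩ := T.swap.cov' hM hx'
      exact Or.inr ⟨y, hy, rfl⟩

lemma adj₁₂ (T : Two cs g v a b) {x y : List B} (hx : x ∈ RW cs (cs.simple a * v)) :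
    (Gr M).Adj (a :: b :: x) (b :: a :: y) ↔ ∃ h ∈ RW cs v, x = a :: h ∧ y = b :: h := by
  rw [Gr_adj, br_cons_cons]
  constructor
  · rintro (⟨h, _⟩ | ⟨_, h, h1, h2⟩)
    · exact absurd h T.hab
    · injection h1 with _ h1
      injection h2 with _ h2
      subst h1 h2
      refine ⟨h, ?_, rfl, rfl⟩
      have := (cons_mem_RW.mp hx).2
      rwa [cs.simple_mul_simple_cancel_left] at this
  · rintro ⟨h, _, rfl, rfl⟩
    exact Or.inr ⟨T.E, h, rfl, rfl⟩

lemma memH (T : Two cs g v a b) {h : List B} (hh : h ∈ RW cs v) :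
    a :: h ∈ RW cs (cs.simple a * v) := by
  rw [cons_mem_RW]
  exact ⟨T.dva, by rwa [cs.simple_mul_simple_cancel_left]⟩

end Two

lemma exists_amalgam (hM : ThreeInf M) {g v : W} {a b : B} (T : Two cs g v a b)
    (Pa : PP cs (cs.simple a * v)) (Pb : PP cs (cs.simple b * v)) :
    ∃ π₁ π₂ : List B → List B, Amalgam (Gr M) (RW cs g) (RW cs (cs.simple a * v))
      (RW cs (cs.simple b * v)) (RW cs v) (fun x => a :: b :: x) (fun x => b :: a :: x)
      (fun x => a :: x) (fun x => b :: x) π₁ π₂ := by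
  obtain ⟨π₁, h₁⟩ := Pa.gate a T.dva
  obtain ⟨π₂, h₂⟩ := Pb.gate b T.dvb
  have i₁ := Pa.iso a T.dva
  have i₂ := Pb.iso b T.dvb
  rw [cs.simple_mul_simple_cancel_left] at h₁ h₂ i₁ i₂
  exact ⟨π₁, π₂,
    { cl := fun x hx y h => RW_closed hx h
      cov := fun x hx => T.cov hM hx
      m₁ := fun y hy => T.mem₁ hy
      m₂ := fun y hy => T.swap.mem₁ hy
      ne := fun x y h => T.hab (List.cons.inj h).1
      inj₁ := fun x y h => (List.cons.inj (List.cons.inj h).2).2
      inj₂ := fun x y h => (List.cons.inj (List.cons.inj h).2).2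
      a₁ := fun x y => by rw [Gr_cons, Gr_cons]
      a₂ := fun x y => by rw [Gr_cons, Gr_cons]
      a₁₂ := fun x hx y _ => T.adj₁₂ hx
      h₁ := fun h hh => T.memH hh
      h₂ := fun h hh => T.swap.memH hh
      r₁ := Pa.reach
      r₂ := Pb.reach
      d₁ := fun h hh h' hh' => i₁ h hh h' hh'
      d₂ := fun h hh h' hh' => i₂ h hh h' hh'
      p₁ := h₁
      p₂ := h₂ }⟩

/-- One side of the two-descent case. -/
lemma side (hM : ThreeInf M) {g v : W} {a b : B} (T : Two cs g v a b)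
    {π₁ π₂ : List B → List B}
    (A : Amalgam (Gr M) (RW cs g) (RW cs (cs.simple a * v))
      (RW cs (cs.simple b * v)) (RW cs v) (fun x => a :: b :: x) (fun x => b :: a :: x)
      (fun x => a :: x) (fun x => b :: x) π₁ π₂)
    (P : PP cs (cs.simple a * g)) :
    (∀ x ∈ RW cs (cs.simple a * g), ∀ y ∈ RW cs (cs.simple a * g),
      (Gr M).dist (a :: x) (a :: y) = (Gr M).dist x y) ∧
    (∃ π : List B → List B, ∀ y ∈ RW cs g,
      π y ∈ RW cs (cs.simple a * g) ∧ ∀ x ∈ RW cs (cs.simple a * g),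
      (Gr M).dist y (a :: x) = (Gr M).dist y (a :: π y) + (Gr M).dist (π y) x) := by
  have Pi := P.iso b T.dab
  rw [T.ea] at Pi
  have iso : ∀ x ∈ RW cs (cs.simple a * g), ∀ y ∈ RW cs (cs.simple a * g),
      (Gr M).dist (a :: x) (a :: y) = (Gr M).dist x y := by
    intro x hx y hy
    obtain ⟨x, hx', rfl⟩ := T.cov' hM hx
    obtain ⟨y, hy', rfl⟩ := T.cov' hM hy
    rw [Pi x hx' y hy']
    exact A.dist₁ hx' hy'
  refine ⟨iso, ?_⟩
  have key : ∀ y, ∃ z, y ∈ RW cs g → z ∈ RW cs (cs.simple a * g) ∧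
      ∀ x ∈ RW cs (cs.simple a * g),
      (Gr M).dist y (a :: x) = (Gr M).dist y (a :: z) + (Gr M).dist z x := by
    intro y
    by_cases hy : y ∈ RW cs g
    · rcases T.cov hM hy with ⟨y, hy', rfl⟩ | ⟨y, hy', rfl⟩
      · refine ⟨b :: y, fun _ => ⟨T.mem₁' hy', fun x hx => ?_⟩⟩
        rw [iso _ (T.mem₁' hy') x hx]
        simp
      · have hp := T.memH (A.p₂ y hy').1
        refine ⟨b :: a :: π₂ y, fun _ => ⟨T.mem₁' hp, fun x hx => ?_⟩⟩
        obtain ⟨x, hx', rfl⟩ := T.cov' hM hx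
        rw [Pi _ hp x hx']
        exact A.gate₁ hx' hy'
    · exact ⟨[], fun h => absurd h hy⟩
  choose π hπ using key
  exact ⟨π, hπ⟩

/-- **The median property for reduced words.** -/
theorem PP_all (hM : ThreeInf M) : ∀ n : ℕ, ∀ g : W, cs.length g ≤ n → PP cs g := by
  intro n
  induction n with
  | zero =>
    intro g hg
    have : g = 1 := cs.length_eq_zero_iff.mp (by omega)
    rw [this]
    exact PP_one
  | succ n ih =>
    intro g hg
    by_cases h1 : g = 1
    · rw [h1]; exact PP_one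
    obtain ⟨a, ha⟩ := exists_Ds (cs := cs) h1
    have hla := ha.length
    by_cases h2 : ∃ b, Ds cs g b ∧ b ≠ a
    · obtain ⟨b, hb, hba⟩ := h2
      obtain ⟨v, T⟩ := exists_Two hM hba.symm ha hb
      have hlb := hb.length
      have hl := T.len
      have l1 := T.la
      have l2 := T.lb
      obtain ⟨π₁, π₂, A⟩ := exists_amalgam hM T (ih _ (by omega)) (ih _ (by omega))
      have sa := side hM T A (ih _ (by omega))
      have sb := side hM T.swap A.swap (ih _ (by omega))
      refine ⟨fun x hx y hy => A.reach hx hy, A.hasMed (ih _ (by omega)).med (ih _ (by omega)).med,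
        ?_, ?_⟩
      · intro c hc
        rcases T.desc hM hc with rfl | rfl
        · exact sa.1
        · exact sb.1
      · intro c hc
        rcases T.desc hM hc with rfl | rfl
        · exact sa.2
        · exact sb.2
    · push Not at h2
      exact PP_single ha h2 (ih _ (by omega))

end Pool.Agent.Q250.Braid
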