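import Pool.Agent.Helper741.Matsumoto
import Pool.Agent.Q250.Braid.Amalgam

set_option autoImplicit false

namespace Pool.Agent.Q250.Braid

open SimpleGraph

variable {B : Type*}

/-- A braid move `u s t s v → u t s t v` with `E s t`. -/
def Br (E : B → B → Prop) (β γ : List B) : Prop :=
  ∃ (u v : List B) (s t : B), E s t ∧ β = u ++ [s, t, s] ++ v ∧ γ = u ++ [t, s, t] ++ v

lemma Br.symm {E : B → B → Prop} (hE : ∀ s t, E s t → E t s) {β γ : List B} (h : Br E β γ) :
    Br E γ β := by
  obtain ⟨u, v, s, t, h1, h2, h3⟩ := h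
  exact ⟨u, v, t, s, hE _ _ h1, h3, h2⟩

lemma Br.ne {E : B → B → Prop} (hE : ∀ s, ¬ E s s) {β γ : List B} (h : Br E β γ) : β ≠ γ := by
  obtain ⟨u, v, s, t, h1, h2, h3⟩ := h
  rintro rfl
  rw [h2] at h3
  simp at h3
  exact hE s (h3.1 ▸ h1)

lemma Br.length_eq {E : B → B → Prop} {β γ : List B} (h : Br E β γ) : γ.length = β.length := by
  obtain ⟨u, v, s, t, h1, rfl, rfl⟩ := h
  simp

lemma Br.cons {E : B → B → Prop} {β γ : List B} (h : Br E β γ) (a : B) :
    Br E (a :: β) (a :: γ) := by
  obtain ⟨u, v, s, t, h1, rfl, rfl⟩ := h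
  exact ⟨a :: u, v, s, t, h1, by simp, by simp⟩

lemma br_cons_cons {E : B → B → Prop} {a b : B} {β γ : List B} :
    Br E (a :: β) (b :: γ) ↔ (a = b ∧ Br E β γ) ∨
      (E a b ∧ ∃ v, β = b :: a :: v ∧ γ = a :: b :: v) := by
  constructor
  · rintro ⟨u, v, s, t, h1, h2, h3⟩
    rcases u with _ | ⟨c, u⟩
    · simp only [List.nil_append, List.cons_append] at h2 h3
      injection h2 with e1 e2
      injection h3 with e3 e4
      subst e1 e3
      exact Or.inr ⟨h1, v, e2, e4⟩
    · simp only [List.cons_append] at h2 h3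
      injection h2 with e1 e2
      injection h3 with e3 e4
      subst e1
      exact Or.inl ⟨e3.symm, u, v, s, t, h1, e2, e4⟩
  · rintro (⟨rfl, h⟩ | ⟨h, v, rfl, rfl⟩)
    · exact h.cons a
    · exact ⟨[], v, a, b, h, rfl, rfl⟩

/-- The graph of all words. -/
def wg (E : B → B → Prop) (hs : ∀ s t, E s t → E t s) (hi : ∀ s, ¬ E s s) :
    SimpleGraph (List B) where
  Adj β γ := Br E β γ
  symm := ⟨fun _ _ h => h.symm hs⟩
  loopless := ⟨fun _ h => h.ne hi rfl⟩

section group

variable {M : CoxeterMatrix B} {W : Type*} [Group W] (cs : CoxeterSystem M W)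

/-- Reduced words of `g`. -/
def RW (g : W) : Set (List B) := {ω | cs.IsReduced ω ∧ cs.wordProd ω = g}

/-- Left descent. -/
def Ds (g : W) (a : B) : Prop := cs.length (cs.simple a * g) < cs.length g

variable {cs}

lemma Ds.length {g : W} {a : B} (h : Ds cs g a) :
    cs.length (cs.simple a * g) + 1 = cs.length g := by
  rcases cs.length_simple_mul g a with h1 | h1
  · unfold Ds at h; omega
  · exact h1

lemma cons_mem_RW {g : W} {a : B} {ω : List B} :
    a :: ω ∈ RW cs g ↔ Ds cs g a ∧ ω ∈ RW cs (cs.simple a * g) := by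
  constructor
  · rintro ⟨h1, h2⟩
    have h3 : cs.wordProd ω = cs.simple a * g := by
      rw [← h2, cs.wordProd_cons, cs.simple_mul_simple_cancel_left]
    have h4 : cs.IsReduced ω := by
      have := h1.drop 1
      simpa using this
    refine ⟨?_, h4, h3⟩
    unfold Ds
    unfold CoxeterSystem.IsReduced at h1 h4
    rw [← h3, ← h2, h1, h4, List.length_cons]
    omega
  · rintro ⟨h1, h2, h3⟩
    have h4 : cs.wordProd (a :: ω) = g := by
      rw [cs.wordProd_cons, h3, cs.simple_mul_simple_cancel_left]
    refine ⟨?_, h4⟩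
    unfold CoxeterSystem.IsReduced at h2 ⊢
    rw [h4, ← h1.length, ← h3, h2, List.length_cons]

lemma mem_RW_cases {g : W} {ω : List B} (h : ω ∈ RW cs g) :
    (ω = [] ∧ g = 1) ∨ ∃ a ω', ω = a :: ω' ∧ Ds cs g a ∧ ω' ∈ RW cs (cs.simple a * g) := by
  rcases ω with _ | ⟨a, ω'⟩
  · left
    exact ⟨rfl, by rw [← h.2]; simp⟩
  · right
    exact ⟨a, ω', rfl, cons_mem_RW.mp h⟩

lemma RW_nonempty (g : W) : ∃ ω, ω ∈ RW cs g := by
  obtain ⟨ω, h1, h2⟩ := cs.exists_isReduced g
  exact ⟨ω, h1, h2.symm⟩

lemma exists_Ds {g : W} (h : g ≠ 1) : ∃ a, Ds cs g a := by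
  obtain ⟨ω, hω⟩ := RW_nonempty (cs := cs) g
  rcases mem_RW_cases hω with ⟨_, h1⟩ | ⟨a, _, _, h1, _⟩
  · exact absurd h1 h
  · exact ⟨a, h1⟩

/-- The defining relation. -/
def E3 (M : CoxeterMatrix B) (s t : B) : Prop := M s t = 3

lemma E3.symm {s t : B} (h : E3 M s t) : E3 M t s := by
  unfold E3 at *
  rwa [M.symmetric]

lemma E3_irrefl (s : B) : ¬ E3 M s s := by
  unfold E3
  rw [M.diagonal]
  norm_num

lemma E3.ne {s t : B} (h : E3 M s t) : s ≠ t := by
  rintro rfl
  exact E3_irrefl s h

lemma braid_rel {s t : B} (h : E3 M s t) :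
    cs.simple s * cs.simple t * cs.simple s = cs.simple t * cs.simple s * cs.simple t := by
  have h1 := cs.simple_mul_simple_pow s t
  unfold E3 at h
  rw [h] at h1
  have hs := cs.simple_mul_simple_self s
  have ht := cs.simple_mul_simple_self t
  have h2 : (cs.simple s * cs.simple t * cs.simple s) * (cs.simple t * cs.simple s * cs.simple t) = 1 := by
    rw [← h1]; simp only [pow_succ, pow_zero, one_mul, mul_assoc]
  have h3 : (cs.simple t * cs.simple s * cs.simple t) * (cs.simple t * cs.simple s * cs.simple t) = 1 := by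
    calc _ = cs.simple t * cs.simple s * (cs.simple t * cs.simple t) * cs.simple s * cs.simple t := by
          simp only [mul_assoc]
      _ = 1 := by rw [ht, mul_one, mul_assoc (cs.simple t), hs, mul_one, ht]
  exact mul_right_cancel (h2.trans h3.symm)

lemma Br.wordProd {β γ : List B} (h : Br (E3 M) β γ) : cs.wordProd γ = cs.wordProd β := by
  obtain ⟨u, v, s, t, h1, rfl, rfl⟩ := h
  simp only [cs.wordProd_append, cs.wordProd_cons, cs.wordProd_nil, mul_one]
  have := braid_rel (cs := cs) h1
  rw [← mul_assoc (cs.simple s), ← mul_assoc (cs.simple t)]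
  rw [this]

lemma RW_closed {g : W} {β γ : List B} (hβ : β ∈ RW cs g) (h : Br (E3 M) β γ) : γ ∈ RW cs g := by
  refine ⟨?_, by rw [h.wordProd (cs := cs), hβ.2]⟩
  have h1 := hβ.1
  unfold CoxeterSystem.IsReduced at *
  rw [h.wordProd (cs := cs), h1, h.length_eq]

end group

section right

variable {M : CoxeterMatrix B} {W : Type*} [Group W] {cs : CoxeterSystem M W}
  [Fintype B] [DecidableEq B]

/-- The `3`-or-infinity hypothesis. -/
def ThreeInf (M : CoxeterMatrix B) : Prop := ∀ s t, s ≠ t → M s t = 3 ∨ M s t = 0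

lemma two_desc (hM : ThreeInf M) {g : W} {a b : B} (hab : a ≠ b) (ha : Ds cs g a)
    (hb : Ds cs g b) : E3 M a b ∧ ∃ v : W,
      cs.simple a * g = cs.simple b * (cs.simple a * v) ∧
      cs.simple b * g = cs.simple a * (cs.simple b * v) ∧ cs.length g = cs.length v + 3 := by
  rcases hM a b hab with h3 | h0
  · refine ⟨h3, ?_⟩
    obtain ⟨u, hu1, hu2⟩ := Pool.Agent.Helper741.exists_aw_front cs g 3 a b hab (Or.inr h3.ge) ha hb
    have e : Pool.Agent.Helper741.aw a b 3 = [a, b, a] := by
      simp [Pool.Agent.Helper741.aw]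
    rw [e] at hu1 hu2
    refine ⟨cs.wordProd u, ?_, ?_, ?_⟩
    · rw [← hu2]
      simp only [List.cons_append, List.nil_append, cs.wordProd_cons]
      rw [cs.simple_mul_simple_cancel_left]
    · rw [← hu2]
      simp only [List.cons_append, List.nil_append, cs.wordProd_cons]
      have := braid_rel (cs := cs) (s := a) (t := b) h3
      have h4 : cs.simple a * (cs.simple b * (cs.simple a * cs.wordProd u)) =
          cs.simple b * (cs.simple a * (cs.simple b * cs.wordProd u)) := by
        rw [← mul_assoc, ← mul_assoc, this, mul_assoc, mul_assoc]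
      rw [h4, cs.simple_mul_simple_cancel_left]
    · have h5 : cs.IsReduced u := by
        have := hu1.drop 3
        simpa using this
      unfold CoxeterSystem.IsReduced at hu1 h5
      rw [← hu2, hu1, h5]
      simp
  · exfalso
    obtain ⟨u, hu1, hu2⟩ := Pool.Agent.Helper741.exists_aw_front cs g (cs.length g + 1) a b hab
      (Or.inl h0) ha hb
    unfold CoxeterSystem.IsReduced at hu1
    rw [hu2, List.length_append, Pool.Agent.Helper741.aw_length] at hu1
    omega

/-- No third letter: after one of two descents only the other one is a descent. -/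
lemma no_third (hM : ThreeInf M) : ∀ n : ℕ, ∀ g : W, cs.length g ≤ n → ∀ a b c : B, a ≠ b →
    Ds cs g a → Ds cs g b → Ds cs (cs.simple a * g) c → c = b := by
  intro n
  induction n with
  | zero =>
    intro g hg a b c _ ha _ _
    unfold Ds at ha
    omega
  | succ n ih =>
    intro g hg a b c hab ha hb hc
    by_contra hcb
    obtain ⟨h3, v, hv1, hv2, hv3⟩ := two_desc hM hab ha hb
    have hla := ha.length
    have sv : ∀ x : B, ∀ w : W, cs.length (cs.simple x * w) ≤ cs.length w + 1 := fun x w => by
      rcases cs.length_simple_mul w x with h | h <;> omega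
    -- `b` and `c` are descents of `s_a g`
    have hb' : Ds cs (cs.simple a * g) b := by
      have h1 := sv a v
      have h2 : cs.simple b * (cs.simple a * g) = cs.simple a * v := by
        rw [hv1, cs.simple_mul_simple_cancel_left]
      unfold Ds
      rw [h2]
      omega
    have hca : c ≠ a := by
      rintro rfl
      unfold Ds at hc ha
      rw [cs.simple_mul_simple_cancel_left] at hc
      omega
    obtain ⟨h4, y, hy1, hy2, hy3⟩ := two_desc hM (Ne.symm hcb) hb' hc
    have hlb := hb'.length
    set g₁ := cs.simple b * (cs.simple a * g) with hg₁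
    have e1 : g₁ = cs.simple a * v := by
      rw [hg₁, hv1, cs.simple_mul_simple_cancel_left]
    have e2 : g₁ = cs.simple c * (cs.simple b * y) := hy1
    have da : Ds cs g₁ a := by
      unfold Ds
      have : cs.simple a * g₁ = v := by rw [e1, cs.simple_mul_simple_cancel_left]
      rw [this]
      omega
    have e3 : cs.simple c * g₁ = cs.simple b * y := by
      rw [e2, cs.simple_mul_simple_cancel_left]
    have dc : Ds cs g₁ c := by
      unfold Ds
      rw [e3]
      have := sv b y
      omega
    have db : Ds cs (cs.simple c * g₁) b := by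
      have h5 := dc.length
      unfold Ds
      rw [e3, cs.simple_mul_simple_cancel_left]
      rw [e3] at h5
      omega
    exact hab (ih g₁ (by omega) c a b hca dc da db).symm

end right

end Pool.Agent.Q250.Braid
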